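import Pool.Agent.Helper65.CG.Defs2
import Pool.Agent.Helper65.Clique.Count

/-!
# Project UB, module A: basic facts on `ga`
-/

set_option autoImplicit false

namespace Pool.Agent.Helper65.CG

open scoped Classical
open Pool.Agent.Helper65.CliqueGame

variable {n q m : ℕ}

theorem ga_eq (ℓ : Sym2 (Fin n) → ℕ) (U : Finset (Sym2 (Fin n))) (T : Finset ℕ)
    (hT : ∀ a ∈ T, 2 ≤ a) (hU : ∀ e ∈ U, 2 ≤ ℓ e → ℓ e ∈ T) :
    ga ℓ U = ∑ a ∈ T, Real.logb 2 (1 + (cnt ℓ U a : ℝ)) := by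
  unfold ga
  apply Finset.sum_subset
  · intro a ha
    rw [Finset.mem_filter, Finset.mem_image] at ha
    obtain ⟨⟨e, he, rfl⟩, h2⟩ := ha
    exact hU e he h2
  · intro a ha hna
    have h0 : cnt ℓ U a = 0 := by
      unfold cnt
      rw [Finset.card_eq_zero, Finset.filter_eq_empty_iff]
      intro e he h
      apply hna
      rw [Finset.mem_filter, Finset.mem_image]
      exact ⟨⟨e, he, h⟩, hT a ha⟩
    rw [h0]
    simp

private lemma logb_one_add_nonneg (x : ℕ) : 0 ≤ Real.logb 2 (1 + (x : ℝ)) := by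
  apply Real.logb_nonneg (by norm_num)
  have : (0 : ℝ) ≤ x := Nat.cast_nonneg x
  linarith

theorem ga_nonneg (ℓ : Sym2 (Fin n) → ℕ) (U : Finset (Sym2 (Fin n))) : 0 ≤ ga ℓ U := by
  unfold ga
  exact Finset.sum_nonneg (fun a _ => logb_one_add_nonneg _)

theorem ga_mono (ℓ : Sym2 (Fin n) → ℕ) {U U' : Finset (Sym2 (Fin n))} (h : U ⊆ U') :
    ga ℓ U ≤ ga ℓ U' := by
  rw [ga_eq ℓ U ((U'.image ℓ).filter (fun a => 2 ≤ a))
    (fun a ha => (Finset.mem_filter.1 ha).2)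
    (fun e he h2 => Finset.mem_filter.2 ⟨Finset.mem_image_of_mem _ (h he), h2⟩)]
  unfold ga
  apply Finset.sum_le_sum
  intro a _
  apply Real.logb_le_logb_of_le (by norm_num) (by positivity)
  have : cnt ℓ U a ≤ cnt ℓ U' a := Finset.card_le_card (Finset.filter_subset_filter _ h)
  have : (cnt ℓ U a : ℝ) ≤ cnt ℓ U' a := by exact_mod_cast this
  linarith

theorem ga_union_le (ℓ : Sym2 (Fin n) → ℕ) (U U' : Finset (Sym2 (Fin n))) :
    ga ℓ (U ∪ U') ≤ ga ℓ U + ga ℓ U' := by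
  rw [ga_eq ℓ U (((U ∪ U').image ℓ).filter (fun a => 2 ≤ a))
    (fun a ha => (Finset.mem_filter.1 ha).2)
    (fun e he h2 => Finset.mem_filter.2
      ⟨Finset.mem_image_of_mem _ (Finset.mem_union_left _ he), h2⟩),
    ga_eq ℓ U' (((U ∪ U').image ℓ).filter (fun a => 2 ≤ a))
    (fun a ha => (Finset.mem_filter.1 ha).2)
    (fun e he h2 => Finset.mem_filter.2
      ⟨Finset.mem_image_of_mem _ (Finset.mem_union_right _ he), h2⟩),
    ← Finset.sum_add_distrib]
  unfold ga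
  apply Finset.sum_le_sum
  intro a _
  have hx : (0 : ℝ) ≤ cnt ℓ U a := Nat.cast_nonneg _
  have hy : (0 : ℝ) ≤ cnt ℓ U' a := Nat.cast_nonneg _
  rw [← Real.logb_mul (by positivity) (by positivity)]
  apply Real.logb_le_logb_of_le (by norm_num) (by positivity)
  have h1 : cnt ℓ (U ∪ U') a ≤ cnt ℓ U a + cnt ℓ U' a := by
    unfold cnt
    rw [Finset.filter_union]
    exact Finset.card_union_le _ _
  have h2 : (cnt ℓ (U ∪ U') a : ℝ) ≤ cnt ℓ U a + cnt ℓ U' a := by exact_mod_cast h1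
  nlinarith

private lemma sum_cnt (ℓ : Sym2 (Fin n) → ℕ) (U : Finset (Sym2 (Fin n))) :
    ∑ a ∈ (U.image ℓ).filter (fun a => 2 ≤ a), cnt ℓ U a =
      (U.filter (fun e => 2 ≤ ℓ e)).card := by
  rw [Finset.card_eq_sum_card_fiberwise (f := ℓ)
    (t := (U.image ℓ).filter (fun a => 2 ≤ a))]
  · apply Finset.sum_congr rfl
    intro a ha
    have h2 := (Finset.mem_filter.1 ha).2
    unfold cnt
    rw [Finset.filter_filter]
    congr 1
    ext e
    simp only [Finset.mem_filter]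
    constructor
    · rintro ⟨h1, h3⟩
      exact ⟨h1, by omega, h3⟩
    · rintro ⟨h1, -, h3⟩
      exact ⟨h1, h3⟩
  · intro e he
    have := Finset.mem_filter.1 (Finset.mem_coe.1 he)
    exact Finset.mem_coe.2 (Finset.mem_filter.2 ⟨Finset.mem_image_of_mem _ this.1, this.2⟩)

theorem ga_le_card (ℓ : Sym2 (Fin n) → ℕ) (U : Finset (Sym2 (Fin n))) :
    ga ℓ U ≤ (U.filter (fun e => 2 ≤ ℓ e)).card := by
  rw [← sum_cnt ℓ U]
  push_cast
  unfold ga
  apply Finset.sum_le_sum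
  intro a _
  rw [Real.logb_le_iff_le_rpow (by norm_num) (by positivity), Real.rpow_natCast]
  have h := Nat.lt_two_pow_self (n := cnt ℓ U a)
  have h2 : 1 + cnt ℓ U a ≤ 2 ^ cnt ℓ U a := by omega
  exact_mod_cast h2

theorem ga_congr {ℓ ℓ' : Sym2 (Fin n) → ℕ} {U : Finset (Sym2 (Fin n))} (h : ∀ e ∈ U, ℓ e = ℓ' e) :
    ga ℓ U = ga ℓ' U := by
  unfold ga
  have h1 : U.image ℓ = U.image ℓ' := Finset.image_congr (fun e he => h e (Finset.mem_coe.1 he))
  rw [h1]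
  apply Finset.sum_congr rfl
  intro a _
  have h2 : cnt ℓ U a = cnt ℓ' U a := by
    unfold cnt
    congr 1
    apply Finset.filter_congr
    intro e he
    rw [h e he]
  rw [h2]

theorem ga_lin (hm : 1 ≤ m) {ℓ : Sym2 (Fin n) → ℕ} (hℓ : Lab m ℓ) (U : Finset (Sym2 (Fin n))) :
    Real.logb 2 ((m : ℝ) + 1) / m * (U.filter (fun e => 2 ≤ ℓ e)).card ≤ ga ℓ U := by
  rw [← sum_cnt ℓ U]
  push_cast
  rw [Finset.mul_sum]
  unfold ga
  apply Finset.sum_le_sum
  intro a ha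
  have h2 := (Finset.mem_filter.1 ha).2
  have hle : cnt ℓ U a ≤ m :=
    (Finset.card_le_card (Finset.filter_subset_filter _ (Finset.subset_univ U))).trans
      (hℓ.size a h2)
  have h3 := rpow_le_one_add hm hle
  have hm0 : (0 : ℝ) < (m : ℝ) + 1 := by positivity
  have h4 := Real.logb_le_logb_of_le (b := 2) (by norm_num) (Real.rpow_pos_of_pos hm0 _) h3
  rw [Real.logb_rpow_eq_mul_logb_of_pos hm0] at h4
  calc Real.logb 2 ((m : ℝ) + 1) / m * (cnt ℓ U a : ℝ)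
      = (cnt ℓ U a : ℝ) / m * Real.logb 2 ((m : ℝ) + 1) := by ring
    _ ≤ _ := h4

end Pool.Agent.Helper65.CG
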